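import Pool.Agent.Helper70.BN.St1

/-!
# Project BN: module LADU
-/

set_option autoImplicit false

namespace Pool.Agent.Helper44.BN

open Pool.Agent.Helper70.BN

theorem hLADU (hRLAD : StRLAD) (hRSWP : StRSWP) : StLADU := by
  intro l m q K htyp hq H _ _ T hT
  rcases htyp with ⟨A, d, Φ, hRS, hm, h3, hK⟩ | ⟨i, j, hij, hk, hm2, _, hodd, hK1, hK2⟩
  · have hT' : Hecke (mm A) q T := by
      refine ⟨hT.1, fun i j hij => ?_⟩
      have := hT.2 i j hij
      rwa [hm i j hij] at this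
    obtain ⟨ws, h1, h2, h4⟩ := hRLAD l A d Φ hRS q hq
      (fun i j hij h => h3 i j hij (by rw [hm i j hij]; exact h)) H T hT'
    exact ⟨ws, hK _ h1, h2, h4⟩
  · obtain ⟨ws, h1, h2, h4⟩ := hRSWP l i j hij hk (m i j) hm2 q hq hodd H T hT.1 (hT.2 i j hij)
    refine ⟨ws, ?_, h2, h4⟩
    rcases h1 with h1 | h1
    · rw [h1]; exact hK1
    · rw [h1]; exact hK2

end Pool.Agent.Helper44.BN
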